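import Pool.Agent.Y772.ND.Stm2

/-!
# ND2-SHIFT: vertical shifts of the analytic axioms (project ND2 of helper772)
-/

set_option autoImplicit false

open Complex Filter Topology Set

namespace Pool.Agent.Y923.ND

/-- order of a translate -/
lemma order_shift (F : ℂ → ℂ) (c s : ℂ) :
    analyticOrderAt (fun z => F (z + c)) s = analyticOrderAt F (s + c) := by
  have h1 : AnalyticAt ℂ (fun z : ℂ => z + c) s := by fun_prop
  have h2 : deriv (fun z : ℂ => z + c) s ≠ 0 := by
    rw [deriv_add_const]
    simp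
  exact analyticOrderAt_comp_of_deriv_ne_zero h1 h2

/-- a vertical shift of an L-function satisfies the same analytic axioms -/
theorem t_SHIFT : Pool.Agent.Y772.ND.P_SHIFT := by
  intro d A F a hd hA hF τ hτ
  have hlog : 0 ≤ Real.log (1 + τ) := Real.log_nonneg (by linarith)
  have h1t : (1 : ℝ) ≤ (1 + τ) ^ A := Real.one_le_rpow (by linarith) (by linarith)
  obtain ⟨A', hA'⟩ : ∃ A' : ℝ, A' = A * (1 + τ) ^ A + d * Real.log (1 + τ) := ⟨_, rfl⟩
  have hdl : 0 ≤ d * Real.log (1 + τ) := by positivity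
  have hAA : A * (1 + τ) ^ A ≤ A' := by rw [hA']; linarith
  have hAA1 : A ≤ A' := by nlinarith
  have hAA2 : A + d * Real.log (1 + τ) ≤ A' := by rw [hA']; nlinarith
  have him : ∀ s : ℂ, (s + I * τ).im = s.im + τ := by intro s; simp
  have hre : ∀ s : ℂ, (s + I * τ).re = s.re := by intro s; simp
  have hconj : ∀ s : ℂ, 1 - (starRingEnd ℂ) s + I * τ = 1 - (starRingEnd ℂ) (s + I * τ) := by
    intro s
    rw [map_add, map_mul, conj_I, conj_ofReal]
    ring
  have hder : ∀ s : ℂ, deriv (fun s : ℂ => F (s + I * τ)) s = deriv F (s + I * τ) := by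
    intro s
    exact deriv_comp_add_const F (I * τ) s
  have hnorm : ∀ n : ℕ, ‖a n * (n : ℂ) ^ (-(I * (τ : ℂ)))‖ = ‖a n‖ := by
    intro n
    rcases Nat.eq_zero_or_pos n with h | h
    · rw [h, hF.ha1 0 (by norm_num)]
      simp
    · rw [norm_mul, Complex.norm_natCast_cpow_of_pos h]
      simp
  refine ⟨A', by linarith, ⟨?_, ?_, ?_, ?_, ?_, ?_, ?_, ?_, ?_, ?_, ?_⟩⟩
  · intro s hs
    have h1 : AnalyticAt ℂ F (s + I * τ) := hF.an _ (by rw [him]; linarith)
    have h2 : AnalyticAt ℂ (fun z : ℂ => z + I * τ) s := by fun_prop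
    exact AnalyticAt.comp (f := fun z : ℂ => z + I * τ) h1 h2
  · intro s h1 h2 h3
    have h4 := hF.growth (s + I * τ) (by rw [hre]; exact h1) (by rw [hre]; exact h2)
      (by rw [him]; linarith)
    rw [him, one_mul] at h4
    rw [one_mul]
    refine h4.trans ?_
    have h5 : (s.im + τ) ^ A ≤ ((1 + τ) * s.im) ^ A :=
      Real.rpow_le_rpow (by linarith) (by nlinarith) (by linarith)
    rw [Real.mul_rpow (by linarith) (by linarith)] at h5
    have h6 : s.im ^ A ≤ s.im ^ A' := Real.rpow_le_rpow_of_exponent_le h3 hAA1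
    have h7 : 0 ≤ s.im ^ A := by positivity
    calc A * (s.im + τ) ^ A ≤ A * ((1 + τ) ^ A * s.im ^ A) :=
          mul_le_mul_of_nonneg_left h5 (by linarith)
      _ = (A * (1 + τ) ^ A) * s.im ^ A := by ring
      _ ≤ A' * s.im ^ A' := mul_le_mul hAA h6 h7 (by linarith)
  · intro t ht
    have h1 := hF.lower (t + τ) (by linarith)
    have h2 : (⟨2, t⟩ : ℂ) + I * τ = ⟨2, t + τ⟩ := by
      apply Complex.ext <;> simp
    show A'⁻¹ ≤ ‖F ((⟨2, t⟩ : ℂ) + I * τ)‖
    rw [h2]
    exact (inv_anti₀ (by linarith) hAA1).trans h1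
  · intro s h1 h2
    exact hF.nzr _ (by rw [hre]; exact h1) (by rw [him]; linarith)
  · intro s h1 h2
    exact hF.nzl _ (by rw [hre]; exact h1) (by rw [him]; linarith)
  · intro s h1 h2 h3
    rw [order_shift, order_shift, hconj]
    exact hF.symm _ (by rw [hre]; exact h1) (by rw [hre]; exact h2) (by rw [him]; linarith)
  · intro n hn
    simp only [hF.ha1 n hn, zero_mul]
  · simp only [hnorm]
    exact hF.has
  · simp only [hnorm]
    exact hF.ha.trans hAA1
  · intro s h1 h2
    rw [hder]
    show deriv F (s + I * τ) / F (s + I * τ) = _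
    rw [hF.ld _ (by rw [hre]; exact h1) (by rw [him]; linarith)]
    congr 1
    refine tsum_congr fun n => ?_
    rcases Nat.eq_zero_or_pos n with h | h
    · rw [h, hF.ha1 0 (by norm_num)]
      simp
    · have hn : (n : ℂ) ≠ 0 := by exact_mod_cast h.ne'
      rw [mul_assoc, ← Complex.cpow_add _ _ hn]
      congr 2
      ring
  · intro s h1 h2 h3 h4
    simp only [hder]
    have h5 := hF.left (s + I * τ) (by rw [hre]; exact h1) (by rw [hre]; exact h2)
      (by rw [him]; linarith) h4
    rw [← hconj, him, one_mul] at h5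
    rw [one_mul]
    have h6 : deriv F (s + I * τ) / F (s + I * τ) + ((d * Real.log s.im : ℝ) : ℂ) +
        (starRingEnd ℂ) (deriv F (1 - (starRingEnd ℂ) s + I * τ) /
          F (1 - (starRingEnd ℂ) s + I * τ)) =
        (deriv F (s + I * τ) / F (s + I * τ) + ((d * Real.log (s.im + τ) : ℝ) : ℂ) +
        (starRingEnd ℂ) (deriv F (1 - (starRingEnd ℂ) s + I * τ) /
          F (1 - (starRingEnd ℂ) s + I * τ))) -
        ((d * (Real.log (s.im + τ) - Real.log s.im) : ℝ) : ℂ) := by
      push_cast
      ring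
    rw [h6]
    refine (norm_sub_le _ _).trans ?_
    have h7 : ‖((d * (Real.log (s.im + τ) - Real.log s.im) : ℝ) : ℂ)‖ ≤ d * Real.log (1 + τ) := by
      rw [Complex.norm_real, Real.norm_eq_abs]
      have hp : 0 < s.im := by linarith
      have h8 : Real.log s.im ≤ Real.log (s.im + τ) := Real.log_le_log hp (by linarith)
      have h9 : Real.log (s.im + τ) ≤ Real.log (1 + τ) + Real.log s.im := by
        rw [← Real.log_mul (by linarith) (by linarith)]
        exact Real.log_le_log (by linarith) (by nlinarith)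
      rw [abs_of_nonneg (mul_nonneg (by linarith) (by linarith))]
      exact mul_le_mul_of_nonneg_left (by linarith) (by linarith)
    linarith

end Pool.Agent.Y923.ND
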